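import Pool.Agent.Work.MP_499dc6_lc.CD.Defs

/-!
# Constant depth circuits with arbitrary gates of small fan-in: definitions

`IsCirc e r F d`: circuits with unbounded fan-in sums, unbounded fan-in products with arbitrary
exponents, arbitrary polynomials in at most `r` earlier gates, and arbitrary polynomials of degree
at most `e` at the bottom.
-/

namespace Pool.Agent.Work.MP_499dc6_lc.CDG

open MvPolynomial Pool.Agent.Work.MP_499dc6_lc.CD

/-- Circuits with `s` gates. Gate `i` is a polynomial of degree at most `e` plus a linear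
combination of any number of earlier gates of level at most `d i`, or a product of powers of
any number of earlier gates of level smaller than `d i`, or an arbitrary polynomial of at most `r`
earlier gates of level smaller than `d i`. -/
def IsCirc {K σ : Type} [Field K] {s : ℕ} (e r : ℕ) (F : Fin s → MvPolynomial σ K)
    (d : Fin s → ℕ) : Prop :=
  ∀ i, (∃ (l : MvPolynomial σ K) (c : Fin s → K), l.totalDegree ≤ e ∧
      (∀ j, c j ≠ 0 → j < i ∧ d j ≤ d i) ∧ F i = l + ∑ j, C (c j) * F j) ∨
    (∃ k : Fin s → ℕ, (∀ j, k j ≠ 0 → j < i ∧ d j < d i) ∧ F i = ∏ j, F j ^ k j) ∨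
    (∃ g : MvPolynomial (Fin s) K, g.vars.card ≤ r ∧ (∀ j ∈ g.vars, j < i ∧ d j < d i) ∧
      F i = aeval F g)

/-- The recursion of the exponents: `(sg, lm)` goes to
`(G + 16 G / l ^ 2, l / 2)` with `l = lm ^ 2 / (4 sg ^ 2)`. -/
noncomputable def rg (G : ℝ) : ℕ → ℝ × ℝ
  | 0 => (G, 1)
  | j + 1 =>
    (G + 16 * G / ((rg G j).2 ^ 2 / (4 * (rg G j).1 ^ 2)) ^ 2,
      ((rg G j).2 ^ 2 / (4 * (rg G j).1 ^ 2)) / 2)

/-- Span of the products of `v t i` over the multisets of pairs `(t, i)` with `t ∈ V`, `1 ≤ i`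
and sum of the `i` equal to `k` (coloured partitions of `k`). -/
noncomputable def CS (K : Type) [Field K] {A τ : Type} [CommRing A] [Algebra K A]
    (V : Finset τ) (v : τ → ℕ → A) (k : ℕ) : Submodule K A :=
  Submodule.span K {a | ∃ M : Multiset (τ × ℕ), (∀ p ∈ M, p.1 ∈ V ∧ 1 ≤ p.2) ∧
    (M.map Prod.snd).sum = k ∧ a = (M.map fun p => v p.1 p.2).prod}

end Pool.Agent.Work.MP_499dc6_lc.CDG
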